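import Pool.Agent.H50.HYP.Cycle
import Pool.Agent.R661.HY.Multi
import Pool.Agent.R661.HY.Dense

set_option autoImplicit false

/-! Interval labellings: one labelling for all `p`. -/

namespace Pool.Agent.H50.HYQ

open Finset Pool.Agent.R661.HY Pool.Agent.H50.HYP

/-- the labels of the edges at `u` lie in `x u, …, x u + D`, and `x ≤ r` -/
def IL {V : Type} (G : SimpleGraph V) (D r : ℕ) : Prop :=
  ∃ (x : V → ℕ) (e : Sym2 V → ℕ), (∀ v, x v ≤ r) ∧ (∀ u v, G.Adj u v → x u ≠ x v) ∧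
    (∀ u v w, G.Adj u v → G.Adj u w → v ≠ w → e s(u, v) ≠ e s(u, w)) ∧
    (∀ u v, G.Adj u v → x u ≤ e s(u, v) ∧ e s(u, v) ≤ x u + D)

theorem IL.mono {V : Type} {G : SimpleGraph V} {D r D' r' : ℕ} (h : IL G D r) (hD : D ≤ D')
    (hr : r ≤ r') : IL G D' r' := by
  obtain ⟨x, e, h1, h2, h3, h4⟩ := h
  exact ⟨x, e, fun v => (h1 v).trans hr, h2, h3, fun u v huv => ⟨(h4 u v huv).1, by
    have := (h4 u v huv).2
    omega⟩⟩

/-- a labelling of the edges given by a symmetric function -/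
theorem IL.of_fun {V : Type} {G : SimpleGraph V} {D r : ℕ} (x : V → ℕ) (c : V → V → ℕ)
    (hc : ∀ u v, c u v = c v u) (h1 : ∀ v, x v ≤ r) (h2 : ∀ u v, G.Adj u v → x u ≠ x v)
    (h3 : ∀ u v w, G.Adj u v → G.Adj u w → v ≠ w → c u v ≠ c u w)
    (h4 : ∀ u v, G.Adj u v → x u ≤ c u v ∧ c u v ≤ x u + D) : IL G D r :=
  ⟨x, fun z => Sym2.lift ⟨c, hc⟩ z, h1, h2, fun u v w a b n => by
    simp only [Sym2.lift_mk]; exact h3 u v w a b n, fun u v a => by
    simp only [Sym2.lift_mk]; exact h4 u v a⟩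

/-- locally injective homomorphisms -/
theorem IL.pull {V W : Type} {G : SimpleGraph V} {H : SimpleGraph W} {D r : ℕ} (h : IL H D r)
    (f : V → W) (hf : ∀ u v, G.Adj u v → H.Adj (f u) (f v))
    (hi : ∀ u v w, G.Adj u v → G.Adj u w → f v = f w → v = w) : IL G D r := by
  obtain ⟨x, e, h1, h2, h3, h4⟩ := h
  refine IL.of_fun (fun v => x (f v)) (fun u v => e s(f u, f v)) (fun u v => by
    rw [Sym2.eq_swap]) (fun v => h1 _) (fun u v huv => h2 _ _ (hf u v huv)) ?_
    (fun u v huv => h4 _ _ (hf u v huv))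
  intro u v w huv huw hvw
  exact h3 _ _ _ (hf u v huv) (hf u w huw) (fun he => hvw (hi u v w huv huw he))

/-- interval labellings give circular (p,1)-total labellings for all `p` -/
theorem IL.circ {V : Type} {G : SimpleGraph V} {D r p : ℕ} (h : IL G D r) (hp : 1 ≤ p) :
    Pool.Agent.H50.HYP.Circ G p (D + 2 * p) := by
  obtain ⟨x, e, h1, h2, h3, h4⟩ := h
  have hN : 0 < D + 2 * p := by omega
  refine ⟨fun v => x v % (D + 2 * p), fun z => (e z + p) % (D + 2 * p), fun v => Nat.mod_lt _ hN,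
    fun z _ => Nat.mod_lt _ hN, ?_, ?_, ?_⟩
  · intro u v huv he
    have a1 := h4 u v huv
    have a2 := h4 v u huv.symm
    rw [Sym2.eq_swap] at a2
    exact h2 u v huv (eq_of_mod he (by omega) (by omega))
  · intro u v w huv huw hvw he
    have a1 := h4 u v huv
    have a2 := h4 u w huw
    have a3 := eq_of_mod he (by omega) (by omega)
    exact h3 u v w huv huw hvw (by omega)
  · intro u v huv
    have a1 := h4 u v huv
    exact dist_mod (r := e s(u, v) - x u + p) (by congr 1; omega) (by omega) (by omega) hN hp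

/-- **Product theorem.** -/
theorem IL.box {V W : Type} [Fintype V] {G : SimpleGraph V} {H : SimpleGraph W}
    {a D₁ r₁ D₂ r₂ D : ℕ} (hG : ∀ v, (G.neighborSet v).ncard ≤ a) (h1 : IL G D₁ r₁)
    (h2 : IL H D₂ r₂) (hD₁ : D₁ + r₂ ≤ D) (hD₂ : a + D₂ ≤ D) :
    IL (G.boxProd H) D (r₁ + r₂) := by
  classical
  obtain ⟨x, e, a1, a2, a3, a4⟩ := h1
  obtain ⟨y, f, b1, b2, b3, b4⟩ := h2
  -- the free labels in the copy of `H` at `g`, relative to `x g`
  let A : V → Finset ℕ := fun g => range (r₂ + D₂ + 1 + a) \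
    ((G.neighborSet g).toFinset).image (fun g' => e s(g, g') + r₂ - x g)
  have hA : ∀ g, r₂ + D₂ + 1 ≤ (A g).card := by
    intro g
    have e1 := Finset.le_card_sdiff
      (((G.neighborSet g).toFinset).image (fun g' => e s(g, g') + r₂ - x g))
      (range (r₂ + D₂ + 1 + a))
    have e2 : (((G.neighborSet g).toFinset).image (fun g' => e s(g, g') + r₂ - x g)).card ≤ a := by
      refine Finset.card_image_le.trans ?_
      rw [← Set.ncard_eq_toFinset_card']
      exact hG g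
    rw [card_range] at e1
    have e3 : (A g).card = (range (r₂ + D₂ + 1 + a) \
      ((G.neighborSet g).toFinset).image (fun g' => e s(g, g') + r₂ - x g)).card := rfl
    omega
  have hex : ∀ g, ∃ ψ : ℕ → ℕ, (∀ z < r₂ + D₂ + 1, ψ z ∈ A g) ∧
      (∀ z z', z ≤ z' → z' < r₂ + D₂ + 1 → ψ z + (z' - z) ≤ ψ z') ∧
      (∀ z < 0, z < r₂ + D₂ + 1 → ψ z = z) :=
    fun g => enum (A g) 0 (r₂ + D₂ + 1) (fun z hz => absurd hz (Nat.not_lt_zero z)) (hA g)
  choose ψ p1 p2 _ using hex
  have hlt : ∀ g z, z < r₂ + D₂ + 1 → ψ g z < r₂ + D₂ + 1 + a := fun g z hz =>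
    mem_range.1 (mem_sdiff.1 (p1 g z hz)).1
  have hlow : ∀ g z, z < r₂ + D₂ + 1 → z ≤ ψ g z := by
    intro g z hz
    have := p2 g 0 z (Nat.zero_le _) hz
    omega
  have hup : ∀ g z, z < r₂ + D₂ + 1 → ψ g z ≤ z + a := by
    intro g z hz
    have e1 := p2 g z (r₂ + D₂) (by omega) (by omega)
    have e2 := hlt g (r₂ + D₂) (by omega)
    omega
  have hinj : ∀ g z z', z < r₂ + D₂ + 1 → z' < r₂ + D₂ + 1 → ψ g z = ψ g z' → z = z' := by
    intro g z z' hz hz' h
    rcases lt_trichotomy z z' with h1 | h1 | h1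
    · have := p2 g z z' h1.le hz'; omega
    · exact h1
    · have := p2 g z' z h1.le hz; omega
  have hav : ∀ g z, z < r₂ + D₂ + 1 → ∀ g', G.Adj g g' → e s(g, g') + r₂ ≠ x g + ψ g z := by
    intro g z hz g' hg' h
    refine (mem_sdiff.1 (p1 g z hz)).2 (mem_image.2 ⟨g', by rw [Set.mem_toFinset]; exact hg', ?_⟩)
    have := a4 g g' hg'
    omega
  have hf : ∀ h h', H.Adj h h' → f s(h, h') < r₂ + D₂ + 1 := by
    intro h h' hh
    have c1 := b4 h h' hh
    have c2 := b1 h
    omega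
  -- the labelling
  let F : V × W → V × W → ℕ := fun u v =>
    if u.1 = v.1 then x u.1 + ψ u.1 (f s(u.2, v.2)) else e s(u.1, v.1) + r₂
  have hFsymm : ∀ u v, F u v = F v u := by
    intro u v
    by_cases h : u.1 = v.1
    · simp only [F]
      rw [if_pos h, if_pos h.symm, h, Sym2.eq_swap]
    · simp only [F]
      rw [if_neg h, if_neg (fun h' => h h'.symm), Sym2.eq_swap]
  have hFG : ∀ u v : V × W, G.Adj u.1 v.1 → F u v = e s(u.1, v.1) + r₂ := by
    intro u v h
    simp only [F]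
    rw [if_neg (G.ne_of_adj h)]
  have hFH : ∀ u v : V × W, u.1 = v.1 → F u v = x u.1 + ψ u.1 (f s(u.2, v.2)) := by
    intro u v h
    simp only [F]
    rw [if_pos h]
  refine IL.of_fun (fun u => x u.1 + y u.2) F hFsymm ?_ ?_ ?_ ?_
  · rintro ⟨g, h⟩
    have := a1 g
    have := b1 h
    simp only
    omega
  · rintro ⟨g, h⟩ ⟨g', h'⟩ hadj
    rw [SimpleGraph.boxProd_adj] at hadj
    simp only at hadj ⊢
    rcases hadj with ⟨ha, rfl⟩ | ⟨ha, rfl⟩
    · have := a2 g g' ha
      omega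
    · have := b2 h h' ha
      omega
  · rintro ⟨g, h⟩ ⟨g', h'⟩ ⟨g'', h''⟩ hadj hadj' hne
    rw [SimpleGraph.boxProd_adj] at hadj hadj'
    simp only at hadj hadj'
    rcases hadj with ⟨ha, heq⟩ | ⟨ha, heq⟩ <;> rcases hadj' with ⟨ha', heq'⟩ | ⟨ha', heq'⟩
    · rw [hFG (g, h) (g', h') ha, hFG (g, h) (g'', h'') ha']
      intro h0
      refine a3 g g' g'' ha ha' ?_ (Nat.add_right_cancel h0)
      rintro rfl
      exact hne (by rw [← heq, ← heq'])
    · rw [hFG (g, h) (g', h') ha, hFH (g, h) (g'', h'') heq']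
      exact hav g _ (hf _ _ ha') g' ha
    · rw [hFG (g, h) (g'', h'') ha', hFH (g, h) (g', h') heq]
      exact fun h0 => hav g _ (hf _ _ ha) g'' ha' h0.symm
    · rw [hFH (g, h) (g', h') heq, hFH (g, h) (g'', h'') heq']
      simp only
      intro h0
      have h1 := hinj g _ _ (hf _ _ ha) (hf _ _ ha') (Nat.add_left_cancel h0)
      refine b3 h h' h'' ha ha' ?_ h1
      rintro rfl
      exact hne (by rw [← heq, ← heq'])
  · rintro ⟨g, h⟩ ⟨g', h'⟩ hadj
    rw [SimpleGraph.boxProd_adj] at hadj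
    simp only at hadj ⊢
    have hy := b1 h
    rcases hadj with ⟨ha, heq⟩ | ⟨ha, heq⟩
    · rw [hFG _ _ ha]
      have := a4 g g' ha
      simp only
      omega
    · rw [hFH _ _ heq]
      have c1 := b4 h h' ha
      have c2 := hlow g _ (hf _ _ ha)
      have c3 := hup g _ (hf _ _ ha)
      simp only
      omega

/-- graphs with colourings of the vertices and of the edges -/
theorem IL.cols {V : Type} {G : SimpleGraph V} {k k' : ℕ} (b : V → ℕ) (cc : V → V → ℕ)
    (h1 : ∀ w, b w ≤ k) (h2 : ∀ u v, G.Adj u v → b u ≠ b v) (h3 : ∀ u v, cc u v = cc v u)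
    (h4 : ∀ u v, G.Adj u v → cc u v < k')
    (h5 : ∀ u v v', G.Adj u v → G.Adj u v' → cc u v = cc u v' → v = v') :
    IL G (k + k' - 1) k := by
  refine IL.of_fun b (fun u v => k + cc u v) (fun u v => by rw [h3]) h1 h2 ?_ ?_
  · intro u v w huv huw hvw he
    exact hvw (h5 u v w huv huw (by omega))
  · intro u v huv
    have c1 := h1 u
    have c2 := h4 u v huv
    omega

/-- proper colourings of the square -/
theorem IL.square {V : Type} {G : SimpleGraph V} {D : ℕ} (c : V → ℕ) (h1 : ∀ v, c v ≤ D)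
    (h2 : ∀ u v, G.Adj u v → c u ≠ c v)
    (h3 : ∀ u v w, G.Adj u v → G.Adj u w → v ≠ w → c v ≠ c w) : IL G D D := by
  refine IL.of_fun c (fun u v => c u + c v) (fun u v => Nat.add_comm _ _) h1 h2 ?_ ?_
  · intro u v w huv huw hvw he
    exact h3 u v w huv huw hvw (Nat.add_left_cancel he)
  · intro u v huv
    have := h1 v
    omega

/-- edge labels for cycles -/
def cyI (n i j : ℕ) : ℕ :=
  if max i j ≠ min i j + 1 then 2
  else if n % 2 = 1 ∧ max i j + 1 = n then 3
  else 1 + min i j % 2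

theorem cyI_comm (n i j : ℕ) : cyI n i j = cyI n j i := by
  unfold cyI
  rw [max_comm, min_comm]

theorem IL.cycle (n : ℕ) (hn : 3 ≤ n) : IL (SimpleGraph.cycleGraph n) 2 2 := by
  refine IL.of_fun (fun i : Fin n => cyV n i.1) (fun i j => cyI n i.1 j.1)
    (fun i j => cyI_comm n i.1 j.1) ?_ (fun u v h => cyV_ne hn (ca_of_adj h)) ?_ ?_
  · intro i
    unfold cyV
    split_ifs <;> omega
  · intro u v w h h' hvw
    obtain ⟨h1, h2, h3⟩ := ca_of_adj h
    obtain ⟨_, h2', h3'⟩ := ca_of_adj h'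
    have hbc : v.1 ≠ w.1 := fun e => hvw (Fin.ext e)
    unfold cyI
    simp only [max_def, min_def]
    split_ifs <;> omega
  · intro u v h
    obtain ⟨h1, h2, h3⟩ := ca_of_adj h
    unfold cyI cyV
    simp only [max_def, min_def]
    split_ifs <;> omega

end Pool.Agent.H50.HYQ
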