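import Pool.Agent.H50.HYQ.Base

set_option autoImplicit false

/-! Interval labellings of graphs with balanced partitions (adapted from `Pool.Agent.R661.HY`). -/

namespace Pool.Agent.H50.HYQ

open Finset Pool.Agent.R661.HY

theorem blow {V : Type} [Fintype V] (G : SimpleGraph V) (t : V → ℕ) (R : ℕ → ℕ → Prop)
    (w d r : ℕ) (hne : ∀ x, ¬ R x x) (hR : ∀ u v, G.Adj u v → R (t u) (t v))
    (hw : ∀ v y, {u | G.Adj v u ∧ t u = y}.ncard ≤ w)
    (col : ℕ → ℕ → ℕ) (hsym : ∀ x y, col x y = col y x) (s δ : ℕ → ℕ)
    (h1 : ∀ x y, R x y → s x ≤ col x y ∧ col x y < s x + d)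
    (h2 : ∀ x y z, R x y → R x z → col x y = col x z → y = z)
    (hδ : ∀ x, δ x ≤ 1)
    (h3 : ∀ x y, R x y → w * s x + δ x ≠ w * s y + δ y)
    (hr : ∀ x y, R x y → w * s x + δ x ≤ r) : IL G (d * w) r := by
  obtain ⟨cc, ccsym, cclt, ccprop⟩ := Pool.Agent.N411.HYO.pair_cols G t w
    (fun u v huv h => hne (t v) (by have := hR u v huv; rwa [h] at this)) hw
  refine IL.of_fun (fun v => min (w * s (t v) + δ (t v)) r)
    (fun u v => w * col (t u) (t v) + cc u v + 1) (fun u v => by rw [hsym, ccsym])
    (fun v => min_le_right _ _) ?_ ?_ ?_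
  · intro u v huv
    rw [min_eq_left (hr _ _ (hR u v huv)), min_eq_left (hr _ _ (hR v u huv.symm))]
    exact h3 _ _ (hR u v huv)
  · intro u v v' huv huv' hvv' h
    have a3 := cclt u v huv
    have a4 := cclt u v' huv'
    have h5 : col (t u) (t v) = col (t u) (t v') := by
      rcases Nat.lt_trichotomy (col (t u) (t v)) (col (t u) (t v')) with h6 | h6 | h6
      · have := Nat.mul_le_mul_left w h6
        have e : w * (col (t u) (t v)).succ = w * col (t u) (t v) + w := Nat.mul_succ _ _
        omega
      · exact h6
      · have := Nat.mul_le_mul_left w h6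
        have e : w * (col (t u) (t v')).succ = w * col (t u) (t v') + w := Nat.mul_succ _ _
        omega
    have h6 := h2 _ _ _ (hR u v huv) (hR u v' huv') h5
    rw [h5] at h
    exact hvv' (ccprop u v v' huv huv' h6 (by omega))
  · intro u v huv
    rw [min_eq_left (hr _ _ (hR u v huv))]
    have a1 := h1 _ _ (hR u v huv)
    have a3 := cclt u v huv
    have a5 := hδ (t u)
    have b1 : w * s (t u) ≤ w * col (t u) (t v) := Nat.mul_le_mul_left _ a1.1
    have b3 : w * (col (t u) (t v) + 1) ≤ w * (s (t u) + d) := Nat.mul_le_mul_left _ a1.2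
    have b5 : w * (s (t u) + d) = w * s (t u) + d * w := by ring
    have b6 : w * (col (t u) (t v) + 1) = w * col (t u) (t v) + w := by ring
    omega

theorem single {V : Type} (G : SimpleGraph V) (K : ℕ) (t : V → ℕ) (hK : 1 ≤ K)
    (ht : ∀ v, t v < K) (hne : ∀ u v, G.Adj u v → t u ≠ t v)
    (hw : ∀ u v v', G.Adj u v → G.Adj u v' → t v = t v' → v = v') : IL G (K - 1) (K - 1) :=
  IL.square t (fun v => by have := ht v; omega) hne
    (fun u v w huv huw hvw h => hvw (hw u v w huv huw h))

theorem IL.bot {V : Type} {G : SimpleGraph V} {D r : ℕ} (h : ∀ u v, ¬ G.Adj u v) : IL G D r :=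
  IL.of_fun (fun _ => 0) (fun _ _ => 0) (fun _ _ => rfl) (fun _ => Nat.zero_le _)
    (fun u v huv => absurd huv (h u v)) (fun u v _ huv => absurd huv (h u v))
    (fun u v huv => absurd huv (h u v))

/-- the main construction -/
theorem types {V : Type} [Fintype V] (G : SimpleGraph V) (m w k : ℕ) (A : ℕ → ℕ → Prop)
    (t : V → ℕ) (hw1 : 1 ≤ w)
    (h1 : ∀ i < m, k ≤ {j | j < m ∧ j ≠ i ∧ ¬ A i j}.ncard)
    (h2 : ∀ j < m, k ≤ {i | i < m ∧ i ≠ j ∧ ¬ A i j}.ncard)
    (hcond : 2 ≤ w ∨ ∀ i, i + 1 < m → ¬ A i (i + 1))
    (hR : ∀ u v, G.Adj u v → RR m A (t u) (t v))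
    (hw : ∀ v y, {u | G.Adj v u ∧ t u = y}.ncard ≤ w) :
    IL G ((2 * m - 1 - k) * w) (w * (m - 1) + 1) := by
  obtain ⟨c, hc1, hc2, hc3⟩ := exists_c m k A h1 h2
  have hkm : ∀ x, x < 2 * m → k ≤ m - 1 := by
    intro x hx
    have h3 := h1 (x / 2) (by omega)
    have h4 : {j | j < m ∧ j ≠ x / 2 ∧ ¬ A (x / 2) j}.ncard ≤
        (((range m).erase (x / 2) : Finset ℕ) : Set ℕ).ncard := by
      refine Set.ncard_le_ncard ?_ (Set.toFinite _)
      rintro j ⟨a1, a2, _⟩
      rw [mem_coe, mem_erase, mem_range]
      exact ⟨a2, a1⟩
    rw [Set.ncard_coe_finset, card_erase_of_mem (mem_range.2 (by omega)), card_range] at h4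
    omega
  refine blow G t (RR m A) w (2 * m - 1 - k) _ (fun x h => h.2.2.1 rfl) hR hw
    (col m k c) (col_symm m k c) (fun x => x / 2) (fun x => 1 - x % 2) ?_ ?_ (fun x => by
      omega) ?_ ?_
  · intro x y h
    have hk := hkm x h.1
    obtain ⟨a1, a2, a3, a4, a5⟩ := h
    unfold col
    by_cases h : x % 2 = y % 2 ∨ x / 2 = y / 2
    · rw [if_pos h]
      unfold gg
      split_ifs with h6 <;> omega
    · rw [if_neg h]
      rcases Nat.mod_two_eq_zero_or_one x with hx | hx
      · rw [if_pos hx]
        have := hc1 (x / 2) (y / 2) (by omega) (by omega) (by omega) (a4 hx (by omega))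
        omega
      · have hx' : ¬ x % 2 = 0 := by omega
        rw [if_neg hx']
        have := hc1 (y / 2) (x / 2) (by omega) (by omega) (by omega) (a5 hx (by omega))
        omega
  · intro x y z h h' he
    have hk := hkm x h.1
    obtain ⟨a1, a2, a3, a4, a5⟩ := h
    obtain ⟨-, b2, b3, b4, b5⟩ := h'
    unfold col at he
    by_cases hy : x % 2 = y % 2 ∨ x / 2 = y / 2
    · by_cases hz : x % 2 = z % 2 ∨ x / 2 = z / 2
      · rw [if_pos hy, if_pos hz] at he
        unfold gg at he
        split_ifs at he <;> omega
      · rw [if_pos hy, if_neg hz] at he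
        exfalso
        rcases Nat.mod_two_eq_zero_or_one x with hx | hx
        · rw [if_pos hx] at he
          have := hc1 (x / 2) (z / 2) (by omega) (by omega) (by omega) (b4 hx (by omega))
          unfold gg at he
          split_ifs at he <;> omega
        · have hx' : ¬ x % 2 = 0 := by omega
          rw [if_neg hx'] at he
          have := hc1 (z / 2) (x / 2) (by omega) (by omega) (by omega) (b5 hx (by omega))
          unfold gg at he
          split_ifs at he <;> omega
    · by_cases hz : x % 2 = z % 2 ∨ x / 2 = z / 2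
      · rw [if_neg hy, if_pos hz] at he
        exfalso
        rcases Nat.mod_two_eq_zero_or_one x with hx | hx
        · rw [if_pos hx] at he
          have := hc1 (x / 2) (y / 2) (by omega) (by omega) (by omega) (a4 hx (by omega))
          unfold gg at he
          split_ifs at he <;> omega
        · have hx' : ¬ x % 2 = 0 := by omega
          rw [if_neg hx'] at he
          have := hc1 (y / 2) (x / 2) (by omega) (by omega) (by omega) (a5 hx (by omega))
          unfold gg at he
          split_ifs at he <;> omega
      · rw [if_neg hy, if_neg hz] at he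
        rcases Nat.mod_two_eq_zero_or_one x with hx | hx
        · rw [if_pos hx, if_pos hx] at he
          have := hc2 (x / 2) (y / 2) (z / 2) (by omega) (by omega) (by omega) (by omega)
            (by omega) (a4 hx (by omega)) (b4 hx (by omega)) (by omega)
          omega
        · have hx' : ¬ x % 2 = 0 := by omega
          rw [if_neg hx', if_neg hx'] at he
          have := hc3 (y / 2) (z / 2) (x / 2) (by omega) (by omega) (by omega) (by omega)
            (by omega) (a5 hx (by omega)) (b5 hx (by omega)) (by omega)
          omega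
  · intro x y h he
    have hc := hkm x h.1
    obtain ⟨a1, a2, a3, a4, a5⟩ := h
    have b0 : m * w ≤ (2 * m - 1 - k) * w := Nat.mul_le_mul_right _ (by omega)
    have b1 : w * (x / 2) + w ≤ m * w := by
      calc w * (x / 2) + w = w * (x / 2 + 1) := by ring
        _ ≤ w * m := Nat.mul_le_mul_left _ (by omega)
        _ = m * w := Nat.mul_comm _ _
    have b2 : w * (y / 2) + w ≤ m * w := by
      calc w * (y / 2) + w = w * (y / 2 + 1) := by ring
        _ ≤ w * m := Nat.mul_le_mul_left _ (by omega)
        _ = m * w := Nat.mul_comm _ _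
    have he' := he
    have key : ∀ i j : ℕ, i < j → w * i + w ≤ w * j := by
      intro i j hij
      calc w * i + w = w * (i + 1) := by ring
        _ ≤ w * j := Nat.mul_le_mul_left _ hij
    rcases Nat.lt_trichotomy (x / 2) (y / 2) with h6 | h6 | h6
    · have h7 := key _ _ h6
      have h8 : w = 1 ∧ x % 2 = 0 ∧ y % 2 = 1 := by omega
      obtain ⟨e1, e2, e3⟩ := h8
      subst e1
      have h9 : ∀ i, i + 1 < m → ¬ A i (i + 1) := by
        rcases hcond with h | h
        · omega
        · exact h
      have h11 : y / 2 = x / 2 + 1 := by omega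
      have h10 := a4 e2 e3
      rw [h11] at h10
      exact h9 (x / 2) (by omega) h10
    · rw [h6] at he'
      omega
    · have h7 := key _ _ h6
      have h8 : w = 1 ∧ x % 2 = 1 ∧ y % 2 = 0 := by omega
      obtain ⟨e1, e2, e3⟩ := h8
      subst e1
      have h9 : ∀ i, i + 1 < m → ¬ A i (i + 1) := by
        rcases hcond with h | h
        · omega
        · exact h
      have h11 : x / 2 = y / 2 + 1 := by omega
      have h10 := a5 e2 e3
      rw [h11] at h10
      exact h9 (y / 2) (by omega) h10
  · intro x y h
    have hc := hkm x h.1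
    obtain ⟨a1, a2, a3, a4, a5⟩ := h
    have b1 : w * (x / 2) ≤ w * (m - 1) := Nat.mul_le_mul_left _ (by omega)
    omega

/-- the numbered form -/
theorem core {V T : Type} [Fintype V] [Fintype T] (G : SimpleGraph V) (F : SimpleGraph T)
    (b : T → Bool) (m w k : ℕ) (t : V → T) (u v : Fin m → T) (hw1 : 1 ≤ w)
    (hu : Function.Injective u) (hv : Function.Injective v) (hub : ∀ i, b (u i) = true)
    (hvb : ∀ i, b (v i) = false) (hT : Fintype.card T = 2 * m)
    (hF : ∀ x, {y | F.Adj x y}.ncard = k) (hb : ∀ x y, F.Adj x y → b x ≠ b y)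
    (huv : ∀ i, ¬ F.Adj (u i) (v i))
    (hcond : 2 ≤ w ∨ ∀ i j : Fin m, (j : ℕ) = i + 1 → F.Adj (u i) (v j))
    (hG : ∀ x y, G.Adj x y → t x ≠ t y ∧ ¬ F.Adj (t x) (t y))
    (hw : ∀ x y, {z | G.Adj x z ∧ t z = y}.ncard ≤ w) :
    IL G ((2 * m - 1 - k) * w) (w * (m - 1) + 1) := by
  classical
  have hinj : Function.Injective (Sum.elim u v) := by
    rintro (i | i) (j | j) h
    · simp only [Sum.elim_inl] at h
      rw [hu h]
    · simp only [Sum.elim_inl, Sum.elim_inr] at h
      have := hub i
      rw [h, hvb j] at this
      exact absurd this (by simp)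
    · simp only [Sum.elim_inl, Sum.elim_inr] at h
      have := hub j
      rw [← h, hvb i] at this
      exact absurd this (by simp)
    · simp only [Sum.elim_inr] at h
      rw [hv h]
  have hbij : Function.Bijective (Sum.elim u v) := by
    rw [Fintype.bijective_iff_injective_and_card]
    refine ⟨hinj, ?_⟩
    rw [Fintype.card_sum, Fintype.card_fin, hT]
    omega
  let e : Fin m ⊕ Fin m ≃ T := Equiv.ofBijective _ hbij
  have heu : ∀ i, e (Sum.inl i) = u i := fun i => rfl
  have hev : ∀ i, e (Sum.inr i) = v i := fun i => rfl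
  let num : T → ℕ := fun x => Sum.elim (fun i : Fin m => 2 * (i : ℕ))
    (fun j : Fin m => 2 * (j : ℕ) + 1) (e.symm x)
  have hnu : ∀ i, num (u i) = 2 * (i : ℕ) := by
    intro i
    simp only [num]
    rw [← heu, Equiv.symm_apply_apply, Sum.elim_inl]
  have hnv : ∀ i, num (v i) = 2 * (i : ℕ) + 1 := by
    intro i
    simp only [num]
    rw [← hev, Equiv.symm_apply_apply, Sum.elim_inr]
  have hcases : ∀ x, (∃ i, x = u i) ∨ ∃ i, x = v i := by
    intro x
    obtain ⟨y, rfl⟩ := e.surjective x
    rcases y with i | i
    · exact Or.inl ⟨i, heu i⟩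
    · exact Or.inr ⟨i, hev i⟩
  have hninj : Function.Injective num := by
    intro x y h
    rcases hcases x with ⟨i, rfl⟩ | ⟨i, rfl⟩ <;> rcases hcases y with ⟨j, rfl⟩ | ⟨j, rfl⟩
    · rw [hnu, hnu] at h
      have : i = j := Fin.ext (by omega)
      rw [this]
    · rw [hnu, hnv] at h
      omega
    · rw [hnu, hnv] at h
      omega
    · rw [hnv, hnv] at h
      have : i = j := Fin.ext (by omega)
      rw [this]
  have hnlt : ∀ x, num x < 2 * m := by
    intro x
    rcases hcases x with ⟨i, rfl⟩ | ⟨i, rfl⟩
    · rw [hnu]
      have := i.2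
      omega
    · rw [hnv]
      have := i.2
      omega
  -- neighbours of the `u i` are the `v j`, `j ≠ i`
  have hFu : ∀ (i : Fin m) y, F.Adj (u i) y → ∃ j, y = v j ∧ j ≠ i := by
    intro i y h
    rcases hcases y with ⟨j, rfl⟩ | ⟨j, rfl⟩
    · exact absurd ((hub i).trans (hub j).symm) (hb _ _ h)
    · refine ⟨j, rfl, ?_⟩
      rintro rfl
      exact huv j h
  have hFv : ∀ (i : Fin m) y, F.Adj (v i) y → ∃ j, y = u j ∧ j ≠ i := by
    intro i y h
    rcases hcases y with ⟨j, rfl⟩ | ⟨j, rfl⟩
    · refine ⟨j, rfl, ?_⟩
      rintro rfl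
      exact huv j h.symm
    · exact absurd ((hvb i).trans (hvb j).symm) (hb _ _ h)
  let A : ℕ → ℕ → Prop := fun i j => ∃ (hi : i < m) (hj : j < m), ¬ F.Adj (u ⟨i, hi⟩) (v ⟨j, hj⟩)
  refine types G m w k A (fun x => num (t x)) hw1 ?_ ?_ ?_ ?_ ?_
  · intro i hi
    rw [← hF (u ⟨i, hi⟩)]
    refine Set.ncard_le_ncard_of_injOn (fun y => num y / 2) ?_ ?_
      ((Set.finite_Iio m).subset fun j hj => hj.1)
    · intro y hy
      obtain ⟨j, rfl, hji⟩ := hFu ⟨i, hi⟩ y hy
      have e1 : num (v j) / 2 = j := by
        rw [hnv]
        omega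
      simp only [Set.mem_setOf_eq, e1]
      refine ⟨j.2, fun h => hji (Fin.ext h), ?_⟩
      rintro ⟨_, hj, h⟩
      exact h hy
    · intro y hy y' hy' h
      obtain ⟨j, rfl, _⟩ := hFu ⟨i, hi⟩ y hy
      obtain ⟨j', rfl, _⟩ := hFu ⟨i, hi⟩ y' hy'
      simp only [hnv] at h
      have : j = j' := Fin.ext (by omega)
      rw [this]
  · intro j hj
    rw [← hF (v ⟨j, hj⟩)]
    refine Set.ncard_le_ncard_of_injOn (fun y => num y / 2) ?_ ?_
      ((Set.finite_Iio m).subset fun i hi => hi.1)
    · intro y hy
      obtain ⟨i, rfl, hij⟩ := hFv ⟨j, hj⟩ y hy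
      have e1 : num (u i) / 2 = i := by
        rw [hnu]
        omega
      simp only [Set.mem_setOf_eq, e1]
      refine ⟨i.2, fun h => hij (Fin.ext h), ?_⟩
      rintro ⟨hi, _, h⟩
      exact h (SimpleGraph.Adj.symm hy)
    · intro y hy y' hy' h
      obtain ⟨i, rfl, _⟩ := hFv ⟨j, hj⟩ y hy
      obtain ⟨i', rfl, _⟩ := hFv ⟨j, hj⟩ y' hy'
      simp only [hnu] at h
      have : i = i' := Fin.ext (by omega)
      rw [this]
  · rcases hcond with h | h
    · exact Or.inl h
    · refine Or.inr fun i hi => ?_
      rintro ⟨h1, h2, h3⟩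
      exact h3 (h ⟨i, h1⟩ ⟨i + 1, h2⟩ rfl)
  · intro x y hxy
    obtain ⟨h1, h2⟩ := hG x y hxy
    refine ⟨hnlt _, hnlt _, fun h => h1 (hninj h), ?_, ?_⟩
    · intro hx hy
      rcases hcases (t x) with ⟨i, hi⟩ | ⟨i, hi⟩
      · rcases hcases (t y) with ⟨j, hj⟩ | ⟨j, hj⟩
        · simp only [hj, hnu] at hy
          omega
        · simp only [hi, hj, hnu, hnv]
          have e1 : 2 * (i : ℕ) / 2 = i := by omega
          have e2 : (2 * (j : ℕ) + 1) / 2 = j := by omega
          rw [e1, e2]
          refine ⟨i.2, j.2, ?_⟩
          rw [hi, hj] at h2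
          exact h2
      · simp only [hi, hnv] at hx
        omega
    · intro hx hy
      rcases hcases (t y) with ⟨i, hi⟩ | ⟨i, hi⟩
      · rcases hcases (t x) with ⟨j, hj⟩ | ⟨j, hj⟩
        · simp only [hj, hnu] at hx
          omega
        · simp only [hi, hj, hnu, hnv]
          have e1 : 2 * (i : ℕ) / 2 = i := by omega
          have e2 : (2 * (j : ℕ) + 1) / 2 = j := by omega
          rw [e1, e2]
          refine ⟨i.2, j.2, ?_⟩
          rw [hi, hj] at h2
          exact fun h => h2 h.symm
      · simp only [hi, hnv] at hy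
        omega
  · intro x y
    by_cases hy : ∃ z, num z = y
    · obtain ⟨z, rfl⟩ := hy
      refine le_trans (Set.ncard_le_ncard ?_ (Set.toFinite _)) (hw x z)
      rintro c ⟨h1, h2⟩
      exact ⟨h1, hninj h2⟩
    · have : {c | G.Adj x c ∧ num (t c) = y} = ∅ := by
        rw [Set.eq_empty_iff_forall_notMem]
        rintro c ⟨_, h⟩
        exact hy ⟨_, h⟩
      rw [this, Set.ncard_empty]
      exact Nat.zero_le _

theorem regular {V T : Type} [Fintype V] [Fintype T] (G : SimpleGraph V) (F : SimpleGraph T)
    (b : T → Bool) (m w k : ℕ) (t : V → T) (hw1 : 1 ≤ w) (hk : 1 ≤ k)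
    (hkm : k < m) (hT : Fintype.card T = 2 * m)
    (hF : ∀ x, {y | F.Adj x y}.ncard = k) (hb : ∀ x y, F.Adj x y → b x ≠ b y)
    (hcond : 2 ≤ w ∨ 4 * k ≤ m)
    (hG : ∀ x y, G.Adj x y → t x ≠ t y ∧ ¬ F.Adj (t x) (t y))
    (hw : ∀ x y, {z | G.Adj x z ∧ t z = y}.ncard ≤ w) :
    IL G ((2 * m - 1 - k) * w) (w * (m - 1) + 1) := by
  classical
  obtain ⟨σ, hσ⟩ := perm_of_regular (fun x y => F.Adj x y) k hk hF (by
    intro y
    rw [← hF y]
    congr 1
    ext x
    exact F.adj_comm x y)
  have hside := sides F b m hT σ hσ hb
  have hX : Fintype.card {x // b x = true} = m := by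
    rw [← hside true, ← Nat.card_eq_fintype_card, ← Nat.card_coe_set_eq]
    rfl
  have hm : 0 < m := by omega
  haveI : NeZero m := ⟨by omega⟩
  have hbσ : ∀ x, b x = true → b (σ x) = false := by
    intro x hx
    have h2 := hb x (σ x) (hσ x)
    rw [hx] at h2
    cases hc : b (σ x) <;> simp_all
  rcases Nat.lt_or_ge 1 w with hw2 | hw2
  · -- `w ≥ 2`
    obtain ⟨τ, hτ⟩ := perm_of_regular (fun x y => b x ≠ b y ∧ ¬ F.Adj x y) (m - k) (by omega)
      (by
        intro x
        have e1 : {y | b x ≠ b y ∧ ¬ F.Adj x y} = {y | b y = !(b x)} \ {y | F.Adj x y} := by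
          ext y
          simp only [Set.mem_setOf_eq, Set.mem_diff]
          refine and_congr_left fun _ => ?_
          cases b x <;> cases b y <;> simp
        rw [e1, Set.ncard_diff _ (Set.toFinite _), hside, hF]
        intro y hy
        have := hb x y hy
        simp only [Set.mem_setOf_eq]
        cases hx : b x <;> cases hy : b y <;> simp_all)
      (by
        intro x
        have e1 : {y | b y ≠ b x ∧ ¬ F.Adj y x} = {y | b y = !(b x)} \ {y | F.Adj x y} := by
          ext y
          simp only [Set.mem_setOf_eq, Set.mem_diff, F.adj_comm y x]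
          refine and_congr_left fun _ => ?_
          cases b x <;> cases b y <;> simp
        rw [e1, Set.ncard_diff _ (Set.toFinite _), hside, hF]
        intro y hy
        have := hb x y hy
        simp only [Set.mem_setOf_eq]
        cases hx : b x <;> cases hy : b y <;> simp_all)
    let e : Fin m ≃ {x // b x = true} := Fintype.equivOfCardEq (by rw [Fintype.card_fin, hX])
    refine core G F b m w k t (fun i => (e i : T)) (fun i => τ (e i)) hw1 ?_ ?_ ?_ ?_ hT hF hb
      ?_ (Or.inl hw2) hG hw
    · intro i j h
      exact e.injective (Subtype.ext h)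
    · intro i j h
      exact e.injective (Subtype.ext (τ.injective h))
    · intro i
      exact (e i).2
    · intro i
      have h1 := (hτ (e i)).1
      rw [(e i).2] at h1
      cases hc : b (τ (e i)) <;> simp_all
    · intro i
      exact (hτ (e i)).2
  · -- `w = 1`
    have h4 : 4 * k ≤ m := by omega
    obtain ⟨π, hπ⟩ := exists_order (X := {x // b x = true}) m (k - 1) hX
      (fun x y => F.Adj (y : T) (σ x)) (by
        intro x
        have h1 : (σ (x : T)) ∈ (Set.univ : Set T) := trivial
        have h2 : ({y : T | F.Adj (σ x) y} \ {(x : T)}).ncard = k - 1 := by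
          rw [Set.ncard_diff_singleton_of_mem (show (x : T) ∈ {y : T | F.Adj (σ x) y} from
            (hσ x).symm), hF]
        rw [← h2]
        refine Set.ncard_le_ncard_of_injOn (fun y : {x // b x = true} => (y : T)) ?_
          Subtype.val_injective.injOn (Set.toFinite _)
        rintro y ⟨h3, h4⟩
        exact ⟨h4.symm, fun h => h3 (Subtype.ext h)⟩) (by
        intro y
        have h2 : ({z : T | F.Adj y z} \ {σ (y : T)}).ncard = k - 1 := by
          rw [Set.ncard_diff_singleton_of_mem (show σ (y : T) ∈ {z : T | F.Adj y z} from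
            hσ y), hF]
        rw [← h2]
        refine Set.ncard_le_ncard_of_injOn (fun x : {x // b x = true} => σ (x : T)) ?_ ?_
          (Set.toFinite _)
        · rintro x ⟨h3, h4⟩
          exact ⟨h4, fun h => h3 (Subtype.ext (σ.injective h))⟩
        · intro x _ x' _ h
          exact Subtype.ext (σ.injective h)) (by omega)
    refine core G F b m w k t (fun i => (π ((i : ℕ) : ZMod m) : T))
      (fun i => σ (π (((i : ℕ) : ZMod m) - 1))) hw1 ?_ ?_ ?_ ?_ hT hF hb ?_ (Or.inr ?_) hG hw
    · intro i j h
      have h1 := π.injective (Subtype.ext h)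
      rw [ZMod.natCast_eq_natCast_iff'] at h1
      rw [Nat.mod_eq_of_lt i.2, Nat.mod_eq_of_lt j.2] at h1
      exact Fin.ext h1
    · intro i j h
      have h1 := π.injective (Subtype.ext (σ.injective h))
      have h2 : ((i : ℕ) : ZMod m) = ((j : ℕ) : ZMod m) := by
        have := congrArg (fun z => z + 1) h1
        simpa using this
      rw [ZMod.natCast_eq_natCast_iff'] at h2
      rw [Nat.mod_eq_of_lt i.2, Nat.mod_eq_of_lt j.2] at h2
      exact Fin.ext h2
    · intro i
      exact (π _).2
    · intro i
      exact hbσ _ (π _).2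
    · intro i h
      have h1 := hπ (((i : ℕ) : ZMod m) - 1)
      rw [sub_add_cancel] at h1
      exact h1 h
    · intro i j hij
      have h1 : ((j : ℕ) : ZMod m) - 1 = ((i : ℕ) : ZMod m) := by
        rw [hij]
        push_cast
        ring
      rw [h1]
      exact hσ _

/-- the case without forbidden pairs -/
theorem noforb {V T : Type} [Fintype V] [Fintype T] (G : SimpleGraph V) (m w : ℕ) (t : V → T)
    (hw2 : 2 ≤ w) (hT : Fintype.card T = 2 * m)
    (hG : ∀ x y, G.Adj x y → t x ≠ t y)
    (hw : ∀ x y, {z | G.Adj x z ∧ t z = y}.ncard ≤ w) :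
    IL G ((2 * m - 1 - 0) * w) (w * (m - 1) + 1) := by
  classical
  have hw1 : 1 ≤ w := by omega
  let e : Fin m ⊕ Fin m ≃ T := Fintype.equivOfCardEq (by
    rw [Fintype.card_sum, Fintype.card_fin, hT]
    omega)
  refine core G ⊥ (fun x => (e.symm x).isLeft) m w 0 t (fun i => e (Sum.inl i))
    (fun i => e (Sum.inr i)) hw1 ?_ ?_ ?_ ?_ hT ?_ ?_ ?_ (Or.inl hw2) ?_ hw
  · intro i j h
    exact Sum.inl_injective (e.injective h)
  · intro i j h
    exact Sum.inr_injective (e.injective h)
  · intro i
    simp
  · intro i
    simp
  · intro x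
    simp
  · intro x y h
    exact absurd h (by simp)
  · intro i h
    exact absurd h (by simp)
  · intro x y h
    exact ⟨hG x y h, by simp⟩

theorem multi {V : Type} [Fintype V] (G : SimpleGraph V) (c : V → ℕ) (s : ℕ)
    (hs' : 2 ≤ s) (hadj : ∀ u v, G.Adj u v → c u ≠ c v)
    (hdiv : ∀ v, s ∣ {u | c u = c v}.ncard) (heven : Even (Fintype.card V)) :
    IL G (Fintype.card V - s) (Fintype.card V / 2) := by
  classical
  have hs : 1 ≤ s := by omega
  obtain ⟨r, hr1, hr2⟩ := exists_rank c
  let b : V → ℕ × ℕ := fun v => (c v, r v / s)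
  -- the blocks have `s` elements
  have hupper : ∀ v, s * (r v / s) + s ≤ {u | c u = c v}.ncard := by
    intro v
    obtain ⟨q, hq⟩ := hdiv v
    have h1 := hr1 v
    rw [hq] at h1 ⊢
    have h2 : r v / s < q := by
      rw [Nat.div_lt_iff_lt_mul (by omega), Nat.mul_comm]
      exact h1
    calc s * (r v / s) + s = s * (r v / s + 1) := by ring
      _ ≤ s * q := Nat.mul_le_mul_left _ h2
  have hfib : ∀ v, {u | b u = b v}.ncard = s := by
    intro v
    have h1 := rank_interval c r hr1 hr2 v (s * (r v / s)) (s * (r v / s) + s) (hupper v)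
    rw [Nat.add_sub_cancel_left] at h1
    rw [← h1]
    congr 1
    ext u
    simp only [b, Set.mem_setOf_eq, Prod.mk.injEq]
    constructor
    · rintro ⟨a1, a2⟩
      rw [← a2]
      exact ⟨a1, Nat.mul_div_le _ _, Nat.lt_mul_div_succ _ (by omega)⟩
    · rintro ⟨a1, a2, a3⟩
      refine ⟨a1, ?_⟩
      apply le_antisymm
      · rw [← Nat.lt_succ_iff, Nat.div_lt_iff_lt_mul (by omega)]
        calc r u < s * (r v / s) + s := a3
          _ = (r v / s).succ * s := by rw [Nat.succ_mul, Nat.mul_comm]
      · rw [Nat.le_div_iff_mul_le (by omega), Nat.mul_comm]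
        exact a2
  set B : Finset (ℕ × ℕ) := univ.image b with hB
  have hn : Fintype.card V = s * B.card := by
    have h1 := card_eq_sum_card_fiberwise (f := b) (s := (univ : Finset V)) (t := B)
      (fun v _ => mem_coe.2 (mem_image_of_mem b (mem_univ v)))
    have h2 : ∀ β ∈ B, (univ.filter fun v => b v = β).card = s := by
      intro β hβ
      obtain ⟨v, _, rfl⟩ := mem_image.1 hβ
      rw [← hfib v, ← Set.ncard_coe_finset]
      congr 1
      ext u
      simp
    rw [sum_congr rfl h2, sum_const, smul_eq_mul, card_univ, Nat.mul_comm] at h1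
    exact h1
  let ix : V → ℕ := fun v => (B.equivFin ⟨b v, mem_image_of_mem b (mem_univ v)⟩ : ℕ)
  have hix : ∀ v, ix v < B.card := fun v => (B.equivFin _).2
  have hixb : ∀ u v, ix u = ix v → b u = b v := by
    intro u v h
    have h1 := B.equivFin.injective (Fin.ext h)
    exact congrArg Subtype.val h1
  have hbix : ∀ u v, b u = b v → ix u = ix v := by
    intro u v h
    simp only [ix]
    congr 2
    exact Subtype.ext h
  have hbc : ∀ u v, ix u = ix v → ¬ G.Adj u v := by
    intro u v h huv
    have h1 := hixb u v h
    exact hadj u v huv (congrArg Prod.fst h1)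
  set M := B.card with hM
  rcases Nat.even_or_odd M with hMe | hMo
  · -- an even number of blocks
    obtain ⟨m, hm⟩ := hMe
    rcases Nat.lt_or_ge 1 s with hs2 | hs1
    · have h := types G m s 0 (fun _ _ => True) ix hs (fun _ _ => Nat.zero_le _)
        (fun _ _ => Nat.zero_le _) (Or.inl hs2) (fun u v huv => ⟨by have := hix u; omega,
          by have := hix v; omega, fun h => hbc u v h huv, fun _ _ => trivial,
          fun _ _ => trivial⟩) (by
          intro v y
          by_cases hy : ∃ u, ix u = y
          · obtain ⟨u, rfl⟩ := hy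
            rw [← hfib u]
            exact Set.ncard_le_ncard (fun x hx => hixb x u hx.2) (Set.toFinite _)
          · have : {u | G.Adj v u ∧ ix u = y} = ∅ := by
              ext u
              simp only [Set.mem_setOf_eq, Set.mem_empty_iff_false, iff_false]
              rintro ⟨_, h⟩
              exact hy ⟨u, h⟩
            rw [this, Set.ncard_empty]
            exact Nat.zero_le _)
      have e1 : (2 * m - 1 - 0) * s = s * M - s := by
        rw [Nat.sub_zero, Nat.sub_mul, one_mul, hm, Nat.mul_comm s]
        congr 2
        omega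
      rw [e1] at h
      rcases Nat.eq_zero_or_pos m with hm0 | hm0
      · refine IL.bot fun u v _ => ?_
        have := hix u
        omega
      · refine h.mono (by rw [hn]) ?_
        have e2 : Fintype.card V = 2 * (s * m) := by rw [hn, hm]; ring
        have e3 : s * m = s * (m - 1) + s := by
          calc s * m = s * (m - 1 + 1) := by rw [Nat.sub_add_cancel hm0]
            _ = _ := by ring
        omega
    · exfalso
      omega
  · -- an odd number of blocks
    have hs2 : Even s := by
      rw [hn] at heven
      rcases Nat.even_mul.1 heven with h | h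
      · exact h
      · exact ((Nat.not_even_iff_odd.2 hMo) h).elim
    obtain ⟨w, hw⟩ := hs2
    have hw1 : 1 ≤ w := by omega
    rcases Nat.lt_or_ge 1 M with hM1 | hM1
    · -- half blocks
      let hf : V → ℕ := fun v => (r v / w) % 2
      let t : V → ℕ := fun v => if hf v = 0 then 2 * ix v else 2 * ((ix v + 1) % M) + 1
      have hmod : ∀ i, i < M → (i + 1) % M = if i + 1 < M then i + 1 else 0 := by
        intro i hi
        split_ifs with h
        · exact Nat.mod_eq_of_lt h
        · have : i + 1 = M := by omega
          rw [this, Nat.mod_self]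
      have hmodlt : ∀ i, (i + 1) % M < M := fun i => Nat.mod_lt _ (by omega)
      have hmodinj : ∀ i j, i < M → j < M → (i + 1) % M = (j + 1) % M → i = j := by
        intro i j hi hj h
        rw [hmod i hi, hmod j hj] at h
        split_ifs at h <;> omega
      have h := types G M w 1 (fun i j => j ≠ (i + 1) % M) t hw1 (by
          intro i hi
          refine (Set.ncard_pos ((Set.finite_Iio M).subset fun j hj => hj.1)).2 ?_
          refine ⟨(i + 1) % M, hmodlt i, ?_, fun h => h rfl⟩
          rw [hmod i hi]
          split_ifs <;> omega) (by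
          intro j hj
          refine (Set.ncard_pos ((Set.finite_Iio M).subset fun j hj => hj.1)).2 ?_
          refine ⟨if j = 0 then M - 1 else j - 1, ?_, ?_, ?_⟩
          · split_ifs <;> omega
          · split_ifs <;> omega
          · intro h
            apply h
            rw [hmod _ (by split_ifs <;> omega)]
            split_ifs <;> omega) (by
          right
          intro i hi h
          apply h
          rw [hmod i (by omega), if_pos hi]) (by
          intro u v huv
          have h1 := hix u
          have h2 := hix v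
          have h3 := hmodlt (ix u)
          have h4 := hmodlt (ix v)
          have h5 : ix u ≠ ix v := fun h => hbc u v h huv
          have h6 : (ix u + 1) % M ≠ (ix v + 1) % M := fun h => h5 (hmodinj _ _ h1 h2 h)
          refine ⟨?_, ?_, ?_, ?_, ?_⟩
          · simp only [t]
            split_ifs <;> omega
          · simp only [t]
            split_ifs <;> omega
          · simp only [t]
            split_ifs <;> omega
          · intro hx hy he
            simp only [t] at hx hy he
            by_cases hu : hf u = 0
            · by_cases hv : hf v = 0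
              · rw [if_pos hv] at hy
                omega
              · rw [if_pos hu, if_neg hv] at he
                have e1 : (2 * ((ix v + 1) % M) + 1) / 2 = (ix v + 1) % M := by omega
                have e2 : 2 * ix u / 2 = ix u := by omega
                rw [e1, e2] at he
                exact h5 (hmodinj _ _ h1 h2 he.symm)
            · rw [if_neg hu] at hx
              omega
          · intro hx hy he
            simp only [t] at hx hy he
            by_cases hu : hf u = 0
            · rw [if_pos hu] at hx
              omega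
            · by_cases hv : hf v = 0
              · rw [if_neg hu, if_pos hv] at he
                have e1 : (2 * ((ix u + 1) % M) + 1) / 2 = (ix u + 1) % M := by omega
                have e2 : 2 * ix v / 2 = ix v := by omega
                rw [e1, e2] at he
                exact h5 (hmodinj _ _ h1 h2 he)
              · rw [if_neg hv] at hy
                omega) (by
          intro v y
          by_cases hy : ∃ u, t u = y
          · obtain ⟨u, rfl⟩ := hy
            have key : {x | G.Adj v x ∧ t x = t u} ⊆ {x | c x = c u ∧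
                s * (r u / s) + w * hf u ≤ r x ∧ r x < s * (r u / s) + w * hf u + w} := by
              rintro x ⟨_, hx⟩
              have hhx : hf x = hf u := by
                have a1 : hf x < 2 := Nat.mod_lt _ (by norm_num)
                have a2 : hf u < 2 := Nat.mod_lt _ (by norm_num)
                simp only [t] at hx
                split_ifs at hx <;> omega
              have hix' : ix x = ix u := by
                simp only [t, hhx] at hx
                split_ifs at hx
                · omega
                · exact hmodinj _ _ (hix x) (hix u) (by omega)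
              have hb := hixb x u hix'
              simp only [b, Prod.mk.injEq] at hb
              refine ⟨hb.1, ?_⟩
              rw [← hb.2, ← hhx]
              -- `r x = s (r x / s) + w h + rest`
              have e1 : r x / s = r x / w / 2 := by
                rw [Nat.div_div_eq_div_mul, hw, ← Nat.mul_two]
              have e2 : s * (r x / s) + w * hf x = w * (r x / w) := by
                rw [e1]
                have e3 := Nat.div_add_mod (r x / w) 2
                calc s * (r x / w / 2) + w * hf x = w * (2 * (r x / w / 2) + (r x / w) % 2) := by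
                      rw [hw]; simp only [hf]; ring
                  _ = _ := by rw [e3]
              rw [e2]
              exact ⟨Nat.mul_div_le _ _, Nat.lt_mul_div_succ _ (by omega)⟩
            have hub := hupper u
            have hlt : hf u < 2 := Nat.mod_lt _ (by norm_num)
            have h7 : w * hf u ≤ w := by
              calc w * hf u ≤ w * 1 := Nat.mul_le_mul_left _ (by omega)
                _ = w := Nat.mul_one _
            have h8 := rank_interval c r hr1 hr2 u (s * (r u / s) + w * hf u)
              (s * (r u / s) + w * hf u + w) (by omega)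
            rw [Nat.add_sub_cancel_left] at h8
            calc _ ≤ _ := Set.ncard_le_ncard key (Set.toFinite _)
              _ = w := h8
          · have : {u | G.Adj v u ∧ t u = y} = ∅ := by
              ext u
              simp only [Set.mem_setOf_eq, Set.mem_empty_iff_false, iff_false]
              rintro ⟨_, h⟩
              exact hy ⟨u, h⟩
            rw [this, Set.ncard_empty]
            exact Nat.zero_le _)
      have e1 : (2 * M - 1 - 1) * w = s * M - s := by
        have e2 : 2 * M - 1 - 1 = 2 * (M - 1) := by omega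
        rw [e2, hw]
        calc 2 * (M - 1) * w = (w + w) * (M - 1) := by ring
          _ = (w + w) * M - (w + w) := by rw [Nat.mul_sub, Nat.mul_one]
      rw [e1] at h
      refine h.mono (by rw [hn]) ?_
      have e2 : Fintype.card V = 2 * (w * M) := by rw [hn, hw]; ring
      have e3 : w * M = w * (M - 1) + w := by
        calc w * M = w * (M - 1 + 1) := by rw [Nat.sub_add_cancel (by omega)]
          _ = _ := by ring
      omega
    · refine IL.bot ?_
      intro u v huv
      have h1 := hix u
      have h2 := hix v
      exact hbc u v (by omega) huv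


end Pool.Agent.H50.HYQ
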