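import Pool.Agent.H50.HYQ.Part
import Pool.Agent.H50.HYP.Main

set_option autoImplicit false

/-! Products of several factors. -/

namespace Pool.Agent.H50.HYQ

open Finset Pool.Agent.H50.HYP

/-- the Cartesian product of finitely many graphs -/
def CP {n : ℕ} {V : Fin n → Type} (G : ∀ i, SimpleGraph (V i)) : SimpleGraph (∀ i, V i) where
  Adj f g := ∃ i, (G i).Adj (f i) (g i) ∧ ∀ j, j ≠ i → f j = g j
  symm := ⟨by
    rintro f g ⟨i, h1, h2⟩
    exact ⟨i, h1.symm, fun j hj => (h2 j hj).symm⟩⟩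
  loopless := ⟨by
    rintro f ⟨i, h1, _⟩
    exact (G i).loopless.irrefl _ h1⟩

/-- splitting off the first factor -/
def split {n : ℕ} (V : Fin (n + 1) → Type) : (∀ i, V i) ≃ V 0 × (∀ i : Fin n, V i.succ) where
  toFun x := (x 0, fun i => x i.succ)
  invFun q := Fin.cons q.1 q.2
  left_inv x := by
    funext i
    refine Fin.cases ?_ (fun i => ?_) i
    · simp
    · simp
  right_inv q := by
    ext1
    · simp
    · funext i
      simp

theorem cp_split {n : ℕ} {V : Fin (n + 1) → Type} (G : ∀ i, SimpleGraph (V i))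
    (f g : ∀ i, V i) : (CP G).Adj f g ↔
      ((G 0).boxProd (CP fun i : Fin n => G i.succ)).Adj (split V f) (split V g) := by
  rw [SimpleGraph.boxProd_adj]
  constructor
  · rintro ⟨i, h1, h2⟩
    revert h1 h2
    refine Fin.cases ?_ (fun i => ?_) i
    · intro h1 h2
      refine Or.inl ⟨h1, ?_⟩
      funext j
      exact h2 j.succ (Fin.succ_ne_zero j)
    · intro h1 h2
      refine Or.inr ⟨⟨i, h1, fun j hj => h2 j.succ (fun h => hj (Fin.succ_injective _ h))⟩, ?_⟩
      exact h2 0 (Fin.succ_ne_zero i).symm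
  · rintro (⟨h1, h2⟩ | ⟨⟨i, h1, h2⟩, h3⟩)
    · refine ⟨0, h1, fun j => ?_⟩
      refine Fin.cases (fun h => absurd rfl h) (fun j _ => ?_) j
      exact congrFun h2 j
    · refine ⟨i.succ, h1, fun j => ?_⟩
      refine Fin.cases (fun _ => h3) (fun j hj => ?_) j
      exact h2 j (fun h => hj (by rw [h]))

theorem ncard_equiv {V W : Type} (e : V ≃ W) {G : SimpleGraph V} {H : SimpleGraph W}
    (h : ∀ u v, G.Adj u v ↔ H.Adj (e u) (e v)) (v : V) :
    (G.neighborSet v).ncard = (H.neighborSet (e v)).ncard := by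
  have h1 : e '' (G.neighborSet v) = H.neighborSet (e v) := by
    ext w
    constructor
    · rintro ⟨u, hu, rfl⟩
      exact (h v u).1 hu
    · intro hw
      refine ⟨e.symm w, ?_, e.apply_symm_apply w⟩
      refine (h v _).2 ?_
      rw [e.apply_symm_apply]
      exact hw
  rw [← h1, Set.ncard_image_of_injective _ e.injective]

/-- degrees in the product -/
theorem cp_deg : ∀ (n : ℕ) (V : Fin n → Type) [∀ i, Fintype (V i)] (G : ∀ i, SimpleGraph (V i))
    (f : ∀ i, V i), ((CP G).neighborSet f).ncard = ∑ i, ((G i).neighborSet (f i)).ncard := by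
  intro n
  induction n with
  | zero =>
    intro V _ G f
    have h : (CP G).neighborSet f = ∅ := by
      rw [Set.eq_empty_iff_forall_notMem]
      rintro g ⟨i, _⟩
      exact i.elim0
    rw [h, Set.ncard_empty]
    simp
  | succ n ih =>
    intro V _ G f
    rw [ncard_equiv (split V) (cp_split G), Fin.sum_univ_succ]
    have h1 := box_ncard (G 0) (CP fun i : Fin n => G i.succ) (f 0) (fun i => f i.succ)
    have h2 := ih (fun i => V i.succ) (fun i => G i.succ) (fun i => f i.succ)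
    rw [h2] at h1
    exact h1

theorem IL.pi : ∀ (n : ℕ) (V : Fin n → Type) [∀ i, Fintype (V i)] (G : ∀ i, SimpleGraph (V i))
    (D r : Fin n → ℕ), (∀ i v, ((G i).neighborSet v).ncard ≤ D i) → (∀ i, r i ≤ D i) →
    (∀ i, IL (G i) (D i) (r i)) → IL (CP G) (∑ i, D i) (∑ i, r i) := by
  intro n
  induction n with
  | zero =>
    intro V _ G D r _ _ _
    exact IL.bot (fun f g ⟨i, _⟩ => i.elim0)
  | succ n ih =>
    intro V _ G D r h1 h2 h3
    have h4 := ih (fun i => V i.succ) (fun i => G i.succ) (fun i => D i.succ) (fun i => r i.succ)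
      (fun i v => h1 i.succ v) (fun i => h2 i.succ) (fun i => h3 i.succ)
    have h5 : ∑ i : Fin n, r i.succ ≤ ∑ i : Fin n, D i.succ :=
      Finset.sum_le_sum fun i _ => h2 i.succ
    have h6 := IL.box (D := ∑ i, D i) (h1 0) (h3 0) h4 (by rw [Fin.sum_univ_succ]; omega)
      (by rw [Fin.sum_univ_succ])
    rw [Fin.sum_univ_succ r]
    refine IL.pull h6 (split V) (fun u v huv => (cp_split G u v).1 huv) ?_
    intro u v w _ _ h
    exact (split V).injective h

theorem MaxD.pi (n : ℕ) (V : Fin n → Type) [∀ i, Fintype (V i)] (G : ∀ i, SimpleGraph (V i))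
    (D : Fin n → ℕ) (h : ∀ i, MaxD (G i) (D i)) : MaxD (CP G) (∑ i, D i) := by
  refine ⟨fun f => ?_, ?_⟩
  · rw [cp_deg]
    exact Finset.sum_le_sum fun i _ => (h i).1 (f i)
  · choose f hf using fun i => (h i).2
    refine ⟨f, ?_⟩
    rw [cp_deg]
    exact Finset.sum_congr rfl fun i _ => hf i

/-- colourings -/
theorem IL.of_Cols {V : Type} {G : SimpleGraph V} {j j' : ℕ} (h : Cols G (j + 1) j') :
    IL G (j + j' - 1) j := by
  obtain ⟨b, cc, h1, h2, h3, h4, h5⟩ := cols_data h
  exact IL.cols b cc h1 h2 h3 h4 h5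

theorem MaxD.box {V W : Type} [Fintype V] [Fintype W] {G : SimpleGraph V} {H : SimpleGraph W}
    {a b : ℕ} (hG : MaxD G a) (hH : MaxD H b) : MaxD (G.boxProd H) (a + b) := by
  obtain ⟨g1, g, g2⟩ := hG
  obtain ⟨h1, h, h2⟩ := hH
  refine ⟨?_, ⟨(g, h), ?_⟩⟩
  · rintro ⟨g', h'⟩
    rw [box_ncard]
    exact Nat.add_le_add (g1 _) (h1 _)
  · rw [box_ncard, g2, h2]

end Pool.Agent.H50.HYQ
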